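import Pool.Agent.H373.CH.K6

/-!
# The Alperin–McKay–Navarro conjecture and the groups `M_n(Z/q) ⋊ A_n`, `q = 2, 3`

Let `L` be a complete discrete valuation ring with an algebraically closed residue field of
characteristic `p` and `Ω` a field containing `L` (for example the algebraic closure of the quotient
field of `L`, with `L` of characteristic zero). The irreducible characters of `G` are given by the
primitive idempotents `ε` of the centre of `ΩG`, the square of the degree is the dimension of `ΩGε`, and
the automorphisms of `Ω` act on the coefficients. Let `X_{n,q} = M_n(Z/q) ⋊ A_n`, where the alternating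
group acts on the additive group of the `n × n` matrices by conjugation with permutation matrices.

For every block `B` of `LG`, `G` an arbitrary finite group, and every `n ≥ |G| ^ 2 + 3 |G|` there is for
odd `p` a block `B'` of `X_{n,2}` such that `B'` is a matrix ring over `B`, the defect groups are
isomorphic, there is a bijection between the irreducible characters in `B` and `B'` which preserves the
height and commutes with all automorphisms of `Ω`, an automorphism of `Ω` fixes `B` if and only if it
fixes `B'`, and all this also holds for the Brauer correspondents of `B` and `B'`. For `p ≠ 3` the same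
is true for the groups `X_{4n,3}`. So the Alperin–McKay–Navarro conjecture for the prime `p` holds for
all blocks of all finite groups if and only if it holds for the groups `X_{n,2}` (`X_{4n,3}`), `n ∈ S`,
where `S` is any infinite set.
-/

set_option autoImplicit false

open Pool.Agent.H373.BU IsLocalRing

theorem Pool.Agent.Results.MP_7f1e7e_al.MatrixExtensions.result (p : ℕ) [Fact p.Prime] (L : Type)
    [CommRing L] [IsDomain L] [IsDiscreteValuationRing L] [IsAdicComplete (maximalIdeal L) L]
    [CharP (ResidueField L) p] [IsAlgClosed (ResidueField L)] (Ω : Type) [Field Ω] (s : L →+* Ω)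
    (hs : Function.Injective s) :
    (p ≠ 2 → (∀ (G : Type) [Group G] [Finite G] (n : ℕ), Nat.card G ^ 2 + 3 * Nat.card G ≤ n →
        ReproN p s G (XG n 2)) ∧
      ∀ S : Set ℕ, S.Infinite →
        ((∀ (G : Type) [Group G] [Finite G] (B : BlockData p L G), AMN s B) ↔
          ∀ n ∈ S, ∀ B : BlockData p L (XG n 2), AMN s B)) ∧
    (p ≠ 3 → (∀ (G : Type) [Group G] [Finite G] (n : ℕ),
        Nat.card G ^ 2 + 3 * Nat.card G ≤ 2 * n → ReproN p s G (XG (4 * n) 3)) ∧
      ∀ S : Set ℕ, S.Infinite →
        ((∀ (G : Type) [Group G] [Finite G] (B : BlockData p L G), AMN s B) ↔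
          ∀ n ∈ S, ∀ B : BlockData p L (XG (4 * n) 3), AMN s B)) :=
  amn_matrix p L Ω s hs
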