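import Pool.Agent.H378.RS.Gen

/-!
# The Alperin–McKay–Navarro conjecture for inertia automorphisms of `p`-power order: one residue
class of differences decides

Blocks are given by their sets of irreducible characters and a valuation ring `O` of `ℂ` containing
`p` in its maximal ideal; `IsBlock`, `IsDefectGroup` and `IsBrauerCorrespondent` are from
`Pool.Agent.H254R3.IN.Defs`. Let `s` be an automorphism of `ℂ` which fixes all roots of unity of order
prime to `p` and acts with `p`-power order on the roots of unity of `p`-power order. For a block `B`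
with defect group `D` and Brauer correspondent `b` let `k_i` and `l_i` be the numbers of the characters
in `Irr₀(B)` and in `Irr₀(b)` fixed by `s ^ (p ^ i)`.

Proof. All blocks are stable under `s`. For a prime number `q ≠ p` the automorphisms `s` and `s ^ q` fix
the same characters, and `s` fixes the `q`-th roots of unity; so the block of `G ≀ C_q` above
`B ⊗ ⋯ ⊗ B` has the numbers `(k_i ^ q + (q² - 1) k_i) / q` and `(l_i ^ q + (q² - 1) l_i) / q`. The numbers
for `B ⊗ ⋯ ⊗ B` are the powers. From these two operations one gets, if `k_i ≠ l_i` for some block, all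
residue classes modulo a given power of `q` as differences `k_i - l_i` at all large scales
(`Pool.Agent.H378.RS.Tw3`: valuations, Teichmüller representatives, Dirichlet's theorem and Hensel's
lemma). The permutation characters of `⟨s⟩` on `Irr₀(B)` and `Irr₀(b)` are determined by the `k_i` and
the `l_i`. For odd `p` the group of all these `s` acts on the roots of unity of order `|G|` as a cyclic
group, generated by the automorphism with `s ζ = ζ ^ (1 + p)` for the `ζ` of `p`-power order.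
-/

set_option autoImplicit false

open scoped Classical

noncomputable section

namespace Pool.Agent.Results.MP_7f1e7e_al.OneResidueClass

open Pool.Agent.H254R3.IN (IsBlock IsDefectGroup IsBrauerCorrespondent)

/-- the characters of height zero in the block `B` of `G` with defect group `D`: the `p`-part of
`χ(1)` is the `p`-part of `|G : D|` -/
def heightZero (p : ℕ) {G : Type} [Group G] (D : Subgroup G) (B : Set (G → ℂ)) : Set (G → ℂ) :=
  {χ | χ ∈ B ∧ ∃ n : ℕ, (n : ℂ) = χ 1 ∧ n.factorization p = D.index.factorization p}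

/-- the members of `X` fixed by `s` -/
def fixed {G : Type} (X : Set (G → ℂ)) (s : ℂ ≃+* ℂ) : Set (G → ℂ) :=
  {χ | χ ∈ X ∧ ∀ g, s (χ g) = χ g}

/-- the block `B` is stable under all automorphisms of `ℂ` -/
def IsRational {G : Type} (B : Set (G → ℂ)) : Prop :=
  ∀ s : ℂ ≃+* ℂ, ∀ χ ∈ B, (fun g => s (χ g)) ∈ B

/-- the automorphisms of `ℂ` which fix all roots of unity of order prime to `p` and act with `p`-power
order on the roots of unity of order `p ^ j`, for all `j` -/
def inertiaP (p : ℕ) : Set (ℂ ≃+* ℂ) :=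
  {s | (∀ n : ℕ, ¬ p ∣ n → ∀ ζ : ℂ, ζ ^ n = 1 → s ζ = ζ) ∧
    ∀ j : ℕ, ∃ i : ℕ, ∀ ζ : ℂ, ζ ^ (p ^ j) = 1 → (s ^ (p ^ i)) ζ = ζ}

/-- the regular wreath product of `G` with `A` -/
abbrev RegularWreath (G A : Type) [Group G] [Group A] : Type :=
  (A → G) ⋊[mulAutArrow (G := A) (A := A) (M := G)] A

/-- `X` is a class of groups closed under isomorphism and direct products of two groups, and `Y` is a
class of finite groups closed under direct products and regular wreath products with finite abelian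
groups -/
structure Closed (X Y : ∀ (P : Type) [Group P], Prop) : Prop where
  iso : ∀ (P Q : Type) [Group P] [Group Q], Nonempty (P ≃* Q) → X P → X Q
  prod : ∀ (P Q : Type) [Group P] [Group Q], X P → X Q → X (P × Q)
  prod' : ∀ (G H : Type) [Group G] [Finite G] [Group H] [Finite H], Y G → Y H → Y (G × H)
  wreath : ∀ (G : Type) [Group G] [Finite G] (A : Type) [CommGroup A] [Finite A], Y G →
    Y (RegularWreath G A)

/-- There is a bijection from `X` to `Y` which commutes with all automorphisms in `T`. -/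
def Equivariant {G H : Type} (T : Set (ℂ ≃+* ℂ)) (X : Set (G → ℂ)) (Y : Set (H → ℂ)) : Prop :=
  ∃ f : X ≃ Y, ∀ t ∈ T, ∀ χ χ' : X, (χ'.1 = fun g => t (χ.1 g)) →
    (f χ').1 = fun g => t ((f χ).1 g)

/-- The Alperin–McKay–Navarro statement for the set `T` of automorphisms, for the blocks with defect
group in `X` of the groups in `Y`: there are bijections `Irr₀(B) → Irr₀(b)` commuting with `T`. -/
def Navarro (p : ℕ) (O : ValuationSubring ℂ) (X Y : ∀ (P : Type) [Group P], Prop)
    (T : Set (ℂ ≃+* ℂ)) : Prop :=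
  ∀ (G : Type) [Group G] [Finite G], Y G → ∀ (B : Set (G → ℂ)) (D : Subgroup G)
    (b : Set (Subgroup.normalizer (D : Set G) → ℂ)), IsBlock O B → IsDefectGroup p O B D →
    IsBrauerCorrespondent p O D B b → X D →
    Equivariant T (heightZero p D B)
      (heightZero p (D.subgroupOf (Subgroup.normalizer (D : Set G))) b)

/-- `P |G| k l` for all Galois-stable blocks `B` with defect group `D` in `X`, Brauer correspondent
`b`, of the groups `G` in `Y`, where `k` and `l` are the numbers of the characters in `Irr₀(B)` and in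
`Irr₀(b)` fixed by `s`. -/
def ForAll (p : ℕ) (O : ValuationSubring ℂ) (X Y : ∀ (P : Type) [Group P], Prop) (s : ℂ ≃+* ℂ)
    (P : ℕ → ℕ → ℕ → Prop) : Prop :=
  ∀ (G : Type) [Group G] [Finite G], Y G → ∀ (B : Set (G → ℂ)) (D : Subgroup G)
    (b : Set (Subgroup.normalizer (D : Set G) → ℂ)), IsBlock O B → IsDefectGroup p O B D →
    IsBrauerCorrespondent p O D B b → X D → IsRational B →
    P (Nat.card G) (fixed (heightZero p D B) s).ncard
      (fixed (heightZero p (D.subgroupOf (Subgroup.normalizer (D : Set G))) b) s).ncard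

/-- `P |G| k l` for some Galois-stable block `B` with defect group `D` in `X`, Brauer correspondent
`b`, of some group `G` in `Y`, where `k` and `l` are the numbers of the characters in `Irr₀(B)` and in
`Irr₀(b)` fixed by `s`. -/
def ForSome (p : ℕ) (O : ValuationSubring ℂ) (X Y : ∀ (P : Type) [Group P], Prop) (s : ℂ ≃+* ℂ)
    (P : ℕ → ℕ → ℕ → Prop) : Prop :=
  ∃ (G : Type) (_ : Group G) (_ : Finite G) (B : Set (G → ℂ)) (D : Subgroup G)
    (b : Set (Subgroup.normalizer (D : Set G) → ℂ)), Y G ∧ IsBlock O B ∧ IsDefectGroup p O B D ∧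
    IsBrauerCorrespondent p O D B b ∧ X D ∧ IsRational B ∧
    P (Nat.card G) (fixed (heightZero p D B) s).ncard
      (fixed (heightZero p (D.subgroupOf (Subgroup.normalizer (D : Set G))) b) s).ncard

/-- `k` and `l` agree up to a factor `t` or up to an error `t` -/
def Close (t : ℝ) (k l : ℕ) : Prop := ((k : ℝ) ≤ t * l ∧ (l : ℝ) ≤ t * k) ∨ |(k : ℝ) - l| ≤ t

theorem gst' {G : Type} {B : Set (G → ℂ)} (h : Pool.Agent.Q17.RB.Gst B) : IsRational B :=
  fun s χ hχ => (h s χ).mp hχ

theorem gst {G : Type} [Group G] [Fintype G] {B : Set (G → ℂ)} (h : IsRational B) :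
    Pool.Agent.Q17.RB.Gst B :=
  Pool.Agent.Q17.AM.gst_of fun t χ hχ => h t χ hχ

theorem Closed.pow {X Y : ∀ (P : Type) [Group P], Prop} (h : Closed X Y) (P : Type) [Group P]
    (n : ℕ) (hn : 1 ≤ n) (hP : X P) : X (Fin n → P) := by
  induction n, hn using Nat.le_induction with
  | base => exact h.iso _ _ ⟨(MulEquiv.funUnique (Fin 1) P).symm⟩ hP
  | succ n _ ih =>
      refine h.iso _ _ ⟨?_⟩ (h.prod _ _ hP ih)
      exact
        { toFun := fun x => Fin.cons x.1 x.2
          invFun := fun f => (f 0, Fin.tail f)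
          left_inv := fun x => by
            refine Prod.ext ?_ ?_
            · change (Fin.cons x.1 x.2 : Fin (n + 1) → P) 0 = x.1
              rw [Fin.cons_zero]
            · change Fin.tail (Fin.cons x.1 x.2 : Fin (n + 1) → P) = x.2
              rw [Fin.tail_cons]
          right_inv := fun f => Fin.cons_self_tail f
          map_mul' := fun x y => by
            funext i
            refine Fin.cases ?_ (fun j => ?_) i
            · rfl
            · rfl }

theorem modEq_iff {q a : ℕ} {s r : ℤ} : s ≡ r [ZMOD (q ^ a : ℕ)] ↔ (q : ℤ) ^ a ∣ s - r := by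
  rw [Int.modEq_comm, Int.modEq_iff_dvd]
  push_cast
  exact Iff.rfl

variable {p : ℕ} {O : ValuationSubring ℂ} {X Y : ∀ (P : Type) [Group P], Prop}

theorem forAll_iff {s : ℂ ≃+* ℂ} {P : ℕ → ℕ → ℕ → Prop} : ForAll p O X Y s P ↔
    Pool.Agent.H378.RS.AllAMN p O (Pool.Agent.H378.RS.GC X Y) s P := by
  constructor
  · intro h G _ _ D B b hd hG
    exact h G (hG.2.1 inferInstance) B D b hd.1 hd.2.1 hd.2.2 hG.2.2 (gst' hG.1)
  · intro h G _ _ hG B D b h1 h2 h3 h4 h5
    have hF : Fintype G := Fintype.ofFinite G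
    exact h G D B b ⟨h1, h2, h3⟩ ⟨gst h5, fun _ => hG, h4⟩

/-- the numbers of fixed characters -/
theorem navarro_iff [Fact p.Prime] (hO : (p : ℂ) ∈ O.nonunits) {s : ℂ ≃+* ℂ}
    (hs : s ∈ inertiaP p) : Navarro p O X Y {s} ↔ ∀ i : ℕ,
      Pool.Agent.H378.RS.AllAMN p O (fun G _ _ D => (Finite G → Y G) ∧ X D) (s ^ (p ^ i))
        (fun _ a b => a = b) := by
  constructor
  · intro h i G _ _ D B b hd hG
    have hsB := Pool.Agent.H378.RS.PIn.st hs hO hd.1
    have hsb := Pool.Agent.Q17.AM.st_corr hO hd hsB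
    obtain ⟨e, he⟩ := h G (hG.1 inferInstance) B D b hd.1 hd.2.1 hd.2.2 hG.2
    exact Pool.Agent.H378.RS.counts_of_equiv (Pool.Agent.Q137.AM.irr0_st hsB p D)
      (Pool.Agent.Q137.AM.irr0_st hsb p _) ⟨e, fun χ χ' h1 => he s rfl χ χ' h1⟩ (p ^ i)
  · intro h G _ _ hG B D b h1 h2 h3 h4
    have hF : Fintype G := Fintype.ofFinite G
    have hF' : Fintype (Pool.Agent.Q17.AM.NN D) := Fintype.ofFinite _
    have hd : Pool.Agent.Q17.AM.Dt p O B D b := ⟨h1, h2, h3⟩
    have hsB := Pool.Agent.H378.RS.PIn.st hs hO hd.1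
    have hsb := Pool.Agent.Q17.AM.st_corr hO hd hsB
    obtain ⟨e, he⟩ := Pool.Agent.H378.RS.equiv_of_counts (p := p) hs
      (Pool.Agent.Q137.AM.irr0_irr h1 p D) (Pool.Agent.Q137.AM.irr0_irr h3.1 p _)
      (Pool.Agent.Q17.AM.irr0_fin h1 p D) (Pool.Agent.Q17.AM.irr0_fin h3.1 p _)
      (Pool.Agent.Q137.AM.irr0_st hsB p D) (Pool.Agent.Q137.AM.irr0_st hsb p _)
      (fun i => h i G D B b hd ⟨fun _ => hG, h4⟩)
    exact ⟨e, fun t ht χ χ' h5 => by
      rw [Set.mem_singleton_iff.1 ht] at h5 ⊢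
      exact he χ χ' h5⟩

/-- **The Alperin–McKay–Navarro conjecture for inertia automorphisms of `p`-power order: one residue
class decides.** Let `p` be a prime number, `X` a class of groups closed under isomorphism and direct
products, `Y` a class of finite groups closed under direct products and regular wreath products with
finite abelian groups (for instance all groups and all finite groups). Let `s` be an automorphism of
`ℂ` which fixes the roots of unity of order prime to `p` and acts with `p`-power order on those of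
order `p ^ j` for all `j` (for instance `s = 1`). For a block `B` with defect group `D` in `X` and Brauer
correspondent `b`, of a group `G` in `Y`, let `k_i`, `l_i` be the numbers of the characters in `Irr₀(B)`
and `Irr₀(b)` fixed by `s ^ (p ^ i)`. For all `i ≥ 0` let `q i ≠ p` be a prime number, `a i` and `n₀ i`
natural numbers and `r i` an integer.
(1) There are bijections `Irr₀(B) → Irr₀(b)` commuting with `s` for all these blocks if and only if for
all `i` and `ε > 0` there are arbitrarily large `x` such that `k_i` and `l_i` agree up to a factor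
`x ^ ε` or up to an error `x ^ ε` for those of these blocks which are Galois-stable with
`k_i - l_i ≡ r i` modulo `q i ^ a i` and `n₀ i ≤ |G| ≤ x`.
(2) If `q i ^ a i` does not divide `r i` for any `i`, such bijections exist for all these blocks if and
only if `k_i - l_i` is not congruent to `r i` modulo `q i ^ a i` for the Galois-stable ones with
`|G| ≥ n₀ i`, for all `i`.
(3) If there is no such bijection for one of these blocks, there is an `i` such that, for all powers
`q ^ a` of prime numbers `q ≠ p` and all `n₀`, for some `δ > 0` one of the following is true for all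
large `x` and all integers `m`, with the same of the two for all `x` and `m`: there is a Galois-stable
block with `n₀ ≤ |G| ≤ x`, `k_i - l_i ≡ m` modulo `q ^ a`, `k_i ≥ x ^ δ l_i` and `k_i - l_i ≥ x ^ δ`; or
the same with `l_i ≥ x ^ δ k_i` and `l_i - k_i ≥ x ^ δ`.
(4) If `p` is odd and `s ζ = ζ ^ (1 + p)` for the roots of unity `ζ` of `p`-power order, then there are
bijections commuting with `s` for all these blocks if and only if there are bijections which commute
with all automorphisms in `inertiaP p`. -/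
theorem result (p : ℕ) [Fact p.Prime] (O : ValuationSubring ℂ) (hO : (p : ℂ) ∈ O.nonunits)
    (X Y : ∀ (P : Type) [Group P], Prop) (hXY : Closed X Y) (s : ℂ ≃+* ℂ) (hs : s ∈ inertiaP p)
    (q a n₀ : ℕ → ℕ) (hq : ∀ i, (q i).Prime) (hqp : ∀ i, q i ≠ p) (r : ℕ → ℤ) :
    (Navarro p O X Y {s} ↔ ∀ i : ℕ, ∀ ε : ℝ, 0 < ε → ∀ x₀ : ℝ, ∃ x : ℝ, x₀ ≤ x ∧
      ForAll p O X Y (s ^ (p ^ i)) (fun g k l => n₀ i ≤ g → (g : ℝ) ≤ x →
        (k : ℤ) - l ≡ r i [ZMOD (q i ^ a i : ℕ)] → Close (x ^ ε) k l)) ∧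
    ((∀ i, ¬ ((q i ^ a i : ℕ) : ℤ) ∣ r i) → (Navarro p O X Y {s} ↔ ∀ i : ℕ,
      ForAll p O X Y (s ^ (p ^ i)) (fun g k l => n₀ i ≤ g →
        ¬ (k : ℤ) - l ≡ r i [ZMOD (q i ^ a i : ℕ)]))) ∧
    (¬ Navarro p O X Y {s} → ∃ i : ℕ, ∀ q a n₀ : ℕ, q.Prime → q ≠ p → ∃ δ : ℝ, 0 < δ ∧ ∃ x₀ : ℝ,
      (∀ x : ℝ, x₀ ≤ x → ∀ m : ℤ, ForSome p O X Y (s ^ (p ^ i)) (fun g k l => n₀ ≤ g ∧
        (g : ℝ) ≤ x ∧ (k : ℤ) - l ≡ m [ZMOD (q ^ a : ℕ)] ∧ x ^ δ * l ≤ k ∧
        x ^ δ ≤ (k : ℝ) - l)) ∨
      (∀ x : ℝ, x₀ ≤ x → ∀ m : ℤ, ForSome p O X Y (s ^ (p ^ i)) (fun g k l => n₀ ≤ g ∧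
        (g : ℝ) ≤ x ∧ (k : ℤ) - l ≡ m [ZMOD (q ^ a : ℕ)] ∧ x ^ δ * k ≤ l ∧
        x ^ δ ≤ (l : ℝ) - k))) ∧
    (p ≠ 2 → (∀ (j : ℕ) (ζ : ℂ), ζ ^ (p ^ j) = 1 → s ζ = ζ ^ (1 + p)) →
      (Navarro p O X Y {s} ↔ Navarro p O X Y (inertiaP p))) := by
  have hX : Pool.Agent.Q17.AM.Cl X := ⟨hXY.iso, fun P _ n hn h => hXY.pow P n hn h⟩
  have hC : Pool.Agent.H378.RS.ClB p O (Pool.Agent.H378.RS.GC X Y) :=
    Pool.Agent.H378.RS.gc_cl hX hXY.prod hXY.wreath hXY.prod'
  have hsi : ∀ i : ℕ, Pool.Agent.H378.RS.PIn p (s ^ (p ^ i)) := fun i =>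
    Pool.Agent.H378.RS.PIn.pow hs _
  have hred := fun i : ℕ => Pool.Agent.H378.RS.gc_red_s hO (hsi i) (X := X) (Y := Y) hX hXY.wreath
  have hmain : (∀ i : ℕ, ∀ ε : ℝ, 0 < ε → ∀ x₀ : ℝ, ∃ x : ℝ, x₀ ≤ x ∧
      ForAll p O X Y (s ^ (p ^ i)) (fun g k l => n₀ i ≤ g → (g : ℝ) ≤ x →
        (k : ℤ) - l ≡ r i [ZMOD (q i ^ a i : ℕ)] → Close (x ^ ε) k l)) →
      Navarro p O X Y {s} := by
    intro h
    rw [navarro_iff hO hs]
    intro i
    rw [hred i]
    refine Pool.Agent.H378.RS.amn_res hO hC (hsi i) (hq i) (hqp i) (a i) (n₀ i) (r i)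
      fun ε hε x₀ => ?_
    obtain ⟨x, hx, H⟩ := h i ε hε x₀
    rw [forAll_iff] at H
    refine ⟨x, hx, fun G _ _ D B b hd hG h1 h2 h3 => ?_⟩
    exact H G D B b hd hG h1 h2 (modEq_iff.2 h3)
  have hall : Navarro p O X Y {s} → ∀ i : ℕ,
      ForAll p O X Y (s ^ (p ^ i)) (fun _ k l => k = l) := by
    intro h i
    rw [navarro_iff hO hs] at h
    have h1 := h i
    rw [hred i] at h1
    exact forAll_iff.2 h1
  refine ⟨⟨fun h i ε _ x₀ => ⟨max x₀ 0, le_max_left _ _, ?_⟩, hmain⟩, fun hr => ⟨fun h i => ?_,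
    fun h => hmain fun i ε _ x₀ => ⟨x₀, le_rfl, ?_⟩⟩, fun h => ?_, fun hp2 hs' => ⟨fun h => ?_,
    fun h => ?_⟩⟩
  · intro G _ _ hG B D b h1 h2 h3 h4 h5 _ _ _
    have h6 := hall h i G hG B D b h1 h2 h3 h4 h5
    refine Or.inr ?_
    rw [h6, sub_self, abs_zero]
    exact Real.rpow_nonneg (le_max_right _ _) _
  · intro G _ _ hG B D b h1 h2 h3 h4 h5 _ h7
    have h6 := hall h i G hG B D b h1 h2 h3 h4 h5
    rw [h6, sub_self, Int.modEq_iff_dvd, sub_zero] at h7
    exact hr i h7
  · intro G _ _ hG B D b h1 h2 h3 h4 h5 h6 _ h7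
    exact absurd h7 (h i G hG B D b h1 h2 h3 h4 h5 h6)
  · rw [navarro_iff hO hs] at h
    push Not at h
    obtain ⟨i, hi⟩ := h
    rw [hred i] at hi
    refine ⟨i, fun q a n₀ hq hqp => ?_⟩
    obtain ⟨δ, hδ, x₀, H⟩ := Pool.Agent.H378.RS.amn_all hO hC (hsi i) hq hqp a n₀ hi
    refine ⟨δ, hδ, x₀, ?_⟩
    rcases H with H | H
    · refine Or.inl fun x hx m => ?_
      obtain ⟨G, i1, i2, D, B, b, hd, hG, h1, h2, h3, h4, h5⟩ := H x hx m
      exact ⟨G, i1, inferInstance, B, D, b, hG.2.1 inferInstance, hd.1, hd.2.1, hd.2.2, hG.2.2,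
        gst' hG.1, h1, h2, modEq_iff.2 h3, h4, h5⟩
    · refine Or.inr fun x hx m => ?_
      obtain ⟨G, i1, i2, D, B, b, hd, hG, h1, h2, h3, h4, h5⟩ := H x hx m
      exact ⟨G, i1, inferInstance, B, D, b, hG.2.1 inferInstance, hd.1, hd.2.1, hd.2.2, hG.2.2,
        gst' hG.1, h1, h2, modEq_iff.2 h3, h4, h5⟩
  · intro G _ _ hG B D b h1 h2 h3 h4
    have hF : Fintype G := Fintype.ofFinite G
    exact Pool.Agent.H378.RS.eqt_gen hp2 hs hs' (Pool.Agent.Q137.AM.irr0_irr h1 p D)
      (Pool.Agent.Q137.AM.irr0_irr h3.1 p _)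
      (Pool.Agent.Q137.AM.irr0_st (Pool.Agent.H378.RS.PIn.st hs hO h1) p D)
      (h G hG B D b h1 h2 h3 h4)
  · intro G _ _ hG B D b h1 h2 h3 h4
    obtain ⟨e, he⟩ := h G hG B D b h1 h2 h3 h4
    exact ⟨e, fun t ht => he t (Set.mem_singleton_iff.1 ht ▸ hs)⟩

end Pool.Agent.Results.MP_7f1e7e_al.OneResidueClass
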