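import Pool.Agent.H373.CH.K6

/-!
# The Alperin–McKay–Navarro conjecture reduces to perfect groups

Let `L` be a complete discrete valuation ring with an algebraically closed residue field of
characteristic `p` and `Ω` a field containing `L`; the irreducible characters of `G` are given by the
primitive idempotents of the centre of `ΩG`. Let `q = 2` for odd `p` and `q = 3` for `p = 2`, and let `C`
be a class of finite groups such that every finite group embeds into a group in `C`.

For every finite group `G` there is a finite extension `Y` of an elementary abelian `q`-group by a group
in `C` such that for every block `B` of `LG` there is a block `B'` of `LY` which is a matrix ring over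
`B`, has isomorphic defect groups, and there is a bijection between the irreducible characters in `B`
and `B'` which preserves the height and commutes with all automorphisms of `Ω`, an automorphism of `Ω`
fixes `B` if and only if it fixes `B'`, and all this also holds for the Brauer correspondents. If the
groups in `C` are perfect, then so is `Y`. So the Alperin–McKay–Navarro conjecture holds for all blocks
of all finite groups if and only if it holds for the perfect finite groups which are extensions of
elementary abelian `q`-groups by alternating groups.
-/

set_option autoImplicit false

open Pool.Agent.H373.BU IsLocalRing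

theorem Pool.Agent.Results.MP_7f1e7e_al.PerfectGroups.result (p : ℕ) [Fact p.Prime] (L : Type)
    [CommRing L] [IsDomain L] [IsDiscreteValuationRing L] [IsAdicComplete (maximalIdeal L) L]
    [CharP (ResidueField L) p] [IsAlgClosed (ResidueField L)] (Ω : Type) [Field Ω] (s : L →+* Ω)
    (hs : Function.Injective s) :
    (∀ C : (H : Type) → [Group H] → Prop, EmbedsAll C →
      (∀ (G : Type) [Group G] [Finite G], ∃ (Y : Type) (_ : Group Y) (_ : Finite Y),
        ExtOf C (qq p) Y ∧ ((∀ (H : Type) [Group H], C H → commutator H = ⊤) →
          commutator Y = ⊤) ∧ ReproN p s G Y) ∧
      ((∀ (G : Type) [Group G] [Finite G] (B : BlockData p L G), AMN s B) ↔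
        ∀ (Y : Type) [Group Y] [Finite Y], ExtOf C (qq p) Y → ∀ B : BlockData p L Y, AMN s B) ∧
      ((∀ (H : Type) [Group H], C H → commutator H = ⊤) →
        ((∀ (G : Type) [Group G] [Finite G] (B : BlockData p L G), AMN s B) ↔
          ∀ (Y : Type) [Group Y] [Finite Y], ExtOf C (qq p) Y → commutator Y = ⊤ →
            ∀ B : BlockData p L Y, AMN s B))) ∧
    ∀ S : Set ℕ, S.Infinite →
      ((∀ (G : Type) [Group G] [Finite G] (B : BlockData p L G), AMN s B) ↔
        ∀ (Y : Type) [Group Y] [Finite Y], ExtOf (AltIn S) (qq p) Y → commutator Y = ⊤ →
          ∀ B : BlockData p L Y, AMN s B) :=
  amn_perf p L Ω s hs
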